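import Pool.Agent.Helper47.SR.Goals

/-! Assembly of project SR. -/

namespace Pool.Agent.Helper47.SR

open Finset

theorem card_le_W {n : ℕ} (G : Grp n) (F : Finset (Finset (Fin n))) : #F ≤ W G F := by
  unfold W
  calc #F = ∑ _A ∈ F, 1 := by simp
    _ ≤ ∑ A ∈ F, (1 + wt G A) := Finset.sum_le_sum (fun A _ => by omega)

theorem W_eq {n : ℕ} (G : Grp n) (F : Finset (Finset (Fin n))) : W G F = #F + Ew G F := by
  unfold W Ew
  rw [Finset.sum_add_distrib]
  simp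

theorem star_all (hSYM : Goal_SYM) (hE12 : Goal_E12) (hM01 : Goal_M01) (hM2 : Goal_M2)
    (hA : Goal_CASEA) (hB : Goal_CASEB) (hC : Goal_CASEC) (hN1 : Goal_N1) (hN2 : Goal_N2)
    (hN3 : Goal_N3) (hN4 : Goal_N4) :
    ∃ n₀ : ℕ, ∀ n ≥ n₀, ∀ G : Grp n, Semireg G → ∀ m, 2 * (m + 1) ≤ n → StarAt G m := by
  obtain ⟨a1, hN1⟩ := hN1
  obtain ⟨a2, hN2⟩ := hN2
  obtain ⟨a3, hN3⟩ := hN3
  obtain ⟨a4, hN4⟩ := hN4
  obtain ⟨a5, hM2⟩ := hM2
  refine ⟨a1 + a2 + a3 + a4 + a5 + 100, fun n hn G hG m hm => ?_⟩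
  have h1 : a1 ≤ n := by omega
  have h2 : a2 ≤ n := by omega
  have h3 : a3 ≤ n := by omega
  have h4 : a4 ≤ n := by omega
  have h5 : a5 ≤ n := by omega
  have hn100 : 100 ≤ n := by omega
  rcases Nat.lt_or_ge m 3 with hm3 | hm3
  · interval_cases m
    · exact (hM01 n G hG (by omega)).1
    · exact (hM01 n G hG (by omega)).2
    · exact hSYM n G 2 (hM2 n h5 G hG)
  apply hSYM n G m
  intro S Y hS hY hSi hYi hhalf hlt
  have hYW := card_le_W G Y
  have hlev : W G (lev n m) ≤ n.choose m + n * (n / 2).choose (m / 2) := by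
    rw [W_eq]
    have e1 : #(lev n m) = n.choose m := by
      rw [Finset.card_powersetCard, Finset.card_univ, Fintype.card_fin]
    rw [e1]
    exact Nat.add_le_add_left ((hE12 n G hG m).1 (by omega)) _
  rcases Nat.lt_or_ge n (16 * m ^ 2) with hbig | hsmall
  · have hN3' := hN3 n h3 m hbig hm
    have hY1 : #Y ≤ (n - 1).choose m := by omega
    by_cases hE : (m + 1) * Ew G (lev n (m + 1)) + (n - m) * Ew G (lev n m) ≤ #Y
    · exact hB n G m (by omega) hm S hS Y hY hY1 hE hlt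
    · rcases Nat.lt_or_ge (7 * n) (20 * (m + 1)) with hlarge | hmid
      · obtain ⟨i, j, g1, g2, g3, g4, g5⟩ := hN4 n h4 m hlarge hm
        exact hC n G hG m i j (by omega) hm g1 g2 g3 g4 g5 S hS Y hY hSi hYi (by omega) hlt
      · have hN2' := hN2 n h2 m hbig hmid
        have hE1 := (hE12 n G hG (m + 1)).1 hm
        have hE2 := (hE12 n G hG m).1 (by omega)
        have q1 := Nat.mul_le_mul_left (m + 1) hE1
        have q2 := Nat.mul_le_mul_left (n - m) hE2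
        exact hA n G hG m hm3 (by omega) S hS Y hY (by omega) hlt
  · have hN1' := hN1 n h1 m hm3 hsmall
    have hm2 : 2 * m + 5 ≤ n := by nlinarith
    exact hA n G hG m hm3 hm2 S hS Y hY (by omega) hlt

theorem final_of (hSYM : Goal_SYM) (hE12 : Goal_E12) (hM01 : Goal_M01) (hM2 : Goal_M2)
    (hA : Goal_CASEA) (hB : Goal_CASEB) (hC : Goal_CASEC) (hN1 : Goal_N1) (hN2 : Goal_N2)
    (hN3 : Goal_N3) (hN4 : Goal_N4) (hBASE : Goal_BASE) (hCONV : Goal_CONV) (hQSYM : Goal_QSYM)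
    (hQST : Goal_QST) (hQMID : Goal_QMID) : Goal_FINAL := by
  obtain ⟨n₀, h⟩ := star_all hSYM hE12 hM01 hM2 hA hB hC hN1 hN2 hN3 hN4
  refine ⟨n₀, fun n hn G hG => hCONV n G ?_⟩
  classical
  refine hBASE n (QL G) QR (hQSYM n G).1 (hQSYM n G).2 ?_ ?_
  · intro m hm S hS T hT hlt _ _
    exact hQST n G m hm (h n hn G hG m hm) S hS T hT hlt
  · intro m hm S hS _
    exact hQMID n G m hm S hS

end Pool.Agent.Helper47.SR
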