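import Pool.Agent.Helper47.SR.Goals

namespace Pool.Agent.Helper47.SR

open Finset

open Classical in
noncomputable def WS46 {n : ℕ} (G : Grp n) (A : Finset (Fin n)) : Finset (Equiv.Perm (Fin n)) :=
  (univ : Finset (Equiv.Perm (Fin n))).filter (fun γ => γ ∈ G ∧ γ ≠ 1 ∧ mv γ A = A)

theorem mem_WS46 {n : ℕ} {G : Grp n} {A : Finset (Fin n)} {γ : Equiv.Perm (Fin n)} :
    γ ∈ WS46 G A ↔ γ ∈ G ∧ γ ≠ 1 ∧ mv γ A = A := by
  classical
  simp [WS46]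

theorem wt_eq46 {n : ℕ} (G : Grp n) (A : Finset (Fin n)) : wt G A = #(WS46 G A) := rfl

theorem mem_mv46 {n : ℕ} {γ : Equiv.Perm (Fin n)} {A : Finset (Fin n)} {x : Fin n} :
    x ∈ mv γ A ↔ ∃ y ∈ A, γ y = x := by
  rw [Finset.mem_map]
  exact Iff.rfl

theorem apply_mem_iff46 {n : ℕ} {γ : Equiv.Perm (Fin n)} {A : Finset (Fin n)} (h : mv γ A = A)
    (x : Fin n) : γ x ∈ A ↔ x ∈ A := by
  constructor
  · intro hx
    rw [← h, mem_mv46] at hx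
    obtain ⟨y, hy, hyx⟩ := hx
    rw [← γ.injective hyx]
    exact hy
  · intro hx
    rw [← h, mem_mv46]
    exact ⟨x, hx, rfl⟩

theorem inj_of_semireg46 {n : ℕ} {G : Grp n} (hG : Semireg G) {γ δ : Equiv.Perm (Fin n)}
    (hγ : γ ∈ G) (hδ : δ ∈ G) {x : Fin n} (h : γ x = δ x) : γ = δ := by
  by_contra hne
  have h1 : δ⁻¹ * γ ∈ G := G.mul_mem (G.inv_mem hδ) hγ
  have h2 : δ⁻¹ * γ ≠ 1 := by
    intro h3
    apply hne
    rw [inv_mul_eq_one] at h3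
    exact h3.symm
  apply hG _ h1 h2 x
  rw [Equiv.Perm.mul_apply, h]
  exact δ.symm_apply_apply x

end Pool.Agent.Helper47.SR
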