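import Pool.Agent.Helper47.SR.Base46

/-! Packet SR-RL (MP_0130f7_co, helper47), proved by helper46. -/

namespace Pool.Agent.Helper47.SR

open Finset

theorem goal_RL (hCNT : Goal_CNT) : Goal_RL := by
  intro n G hG A hA
  classical
  set Γ := (univ : Finset (Equiv.Perm (Fin n))).filter (fun γ => γ ∈ G ∧ γ ≠ 1) with hΓ
  -- the pairs `(i, j)` for `γ`
  set Q : Equiv.Perm (Fin n) → Finset (Fin n × Fin n) := fun γ =>
    (A ×ˢ Aᶜ).filter (fun p => mv γ (insert p.2 (A.erase p.1)) = insert p.2 (A.erase p.1)) with hQ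
  have h0 : ∑ i ∈ A, ∑ j ∈ Aᶜ, wt G (insert j (A.erase i)) = ∑ γ ∈ Γ, #(Q γ) := by
    rw [← Finset.sum_product' A Aᶜ (fun i j => wt G (insert j (A.erase i)))]
    have h1 : ∀ p ∈ A ×ˢ Aᶜ, wt G (insert p.2 (A.erase p.1)) =
        ∑ γ ∈ Γ, if mv γ (insert p.2 (A.erase p.1)) = insert p.2 (A.erase p.1) then 1 else 0 := by
      intro p _
      rw [wt_eq46, Finset.card_eq_sum_ones, ← Finset.sum_filter]
      apply Finset.sum_congr _ (fun _ _ => rfl)
      ext γ
      simp only [mem_WS46, hΓ, mem_filter, mem_univ, true_and, and_assoc]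
    rw [Finset.sum_congr rfl h1, Finset.sum_comm]
    apply Finset.sum_congr rfl
    intro γ _
    rw [hQ, Finset.card_eq_sum_ones, ← Finset.sum_filter]
  -- structure
  have hst : ∀ γ ∈ Γ, ∀ p ∈ Q γ, p.1 ∈ A ∧ p.2 ∉ A ∧ γ p.1 ∉ A ∧ (∃ u ∈ A, u ≠ p.1 ∧ γ u = p.2) ∧
      ∀ u ∈ A, u ≠ p.1 → γ u ≠ p.2 → γ u ∈ A := by
    intro γ hγ p hp
    simp only [hΓ, mem_filter, mem_univ, true_and] at hγ
    simp only [hQ, mem_filter, mem_product, mem_compl] at hp
    obtain ⟨⟨hi, hj⟩, hx⟩ := hp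
    have hnx : p.1 ∉ insert p.2 (A.erase p.1) := by
      simp only [mem_insert, mem_erase, ne_eq, not_true_eq_false, false_and, or_false]
      intro h
      rw [← h] at hj
      exact hj hi
    have hγi : γ p.1 ∉ insert p.2 (A.erase p.1) := by
      rw [apply_mem_iff46 hx]; exact hnx
    refine ⟨hi, hj, ?_, ?_, ?_⟩
    · intro h
      apply hγi
      rw [mem_insert, mem_erase]
      exact Or.inr ⟨hG γ hγ.1 hγ.2 _, h⟩
    · have h1 : p.2 ∈ mv γ (insert p.2 (A.erase p.1)) := by rw [hx]; exact mem_insert_self _ _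
      rw [mem_mv46] at h1
      obtain ⟨u, hu, hu2⟩ := h1
      rw [mem_insert] at hu
      rcases hu with hu | hu
      · exfalso
        subst hu
        exact hG γ hγ.1 hγ.2 _ hu2
      · rw [mem_erase] at hu
        exact ⟨u, hu.2, hu.1, hu2⟩
    · intro u hu hu1 hu2
      have h1 : γ u ∈ insert p.2 (A.erase p.1) := by
        rw [apply_mem_iff46 hx, mem_insert, mem_erase]
        exact Or.inr ⟨hu1, hu⟩
      rw [mem_insert] at h1
      exact mem_of_mem_erase (h1.resolve_left hu2)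
  -- `#A - 2 ≤ #(γ A ∩ A)` if `Q γ` is non-empty, and `#(Q γ) ≤ 2`
  have hdis : ∀ γ ∈ Γ, ∀ p ∈ Q γ, ∃ u ∈ A, u ≠ p.1 ∧ γ u = p.2 ∧
      A.filter (fun v => γ v ∉ A) = {p.1, u} := by
    intro γ hγ p hp
    obtain ⟨hi, hj, hγi, ⟨u, huA, hui, huj⟩, hall⟩ := hst γ hγ p hp
    refine ⟨u, huA, hui, huj, ?_⟩
    ext v
    simp only [mem_filter, mem_insert, mem_singleton]
    constructor
    · rintro ⟨hv, hv2⟩
      by_contra hcon
      push Not at hcon
      apply hv2
      apply hall v hv hcon.1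
      intro h
      exact hcon.2 (γ.injective (h.trans huj.symm))
    · rintro (rfl | rfl)
      · exact ⟨hi, hγi⟩
      · exact ⟨huA, by rw [huj]; exact hj⟩
  have hQ2 : ∀ γ ∈ Γ, #(Q γ) ≤ 2 := by
    intro γ hγ
    rcases (Q γ).eq_empty_or_nonempty with h | ⟨p, hp⟩
    · simp [h]
    · obtain ⟨u, huA, hui, huj, hf⟩ := hdis γ hγ p hp
      have hsub : Q γ ⊆ {(p.1, γ u), (u, γ p.1)} := by
        intro q hq
        obtain ⟨v, hvA, hvi, hvj, hg⟩ := hdis γ hγ q hq
        rw [hf] at hg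
        have h1 : q.1 ∈ ({p.1, u} : Finset (Fin n)) := by rw [hg]; simp
        have h2 : v ∈ ({p.1, u} : Finset (Fin n)) := by rw [hg]; simp
        simp only [mem_insert, mem_singleton] at h1 h2 ⊢
        rcases h1 with h1 | h1
        · rcases h2 with h2 | h2
          · exact absurd (h2.trans h1.symm) hvi
          · left
            apply Prod.ext
            · exact h1
            · rw [← hvj, h2]
        · rcases h2 with h2 | h2
          · right
            apply Prod.ext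
            · exact h1
            · rw [← hvj, h2]
          · exact absurd (h2.trans h1.symm) hvi
      exact (card_le_card hsub).trans card_le_two
  have hcard : ∀ γ ∈ Γ, (Q γ).Nonempty → #A - 2 ≤ #(mv γ A ∩ A) := by
    intro γ hγ ⟨p, hp⟩
    obtain ⟨u, huA, hui, huj, hf⟩ := hdis γ hγ p hp
    have h1 : (A \ {p.1, u}).map γ.toEmbedding ⊆ mv γ A ∩ A := by
      intro x hx
      rw [mem_map] at hx
      obtain ⟨v, hv, rfl⟩ := hx
      rw [mem_sdiff, ← hf, mem_filter] at hv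
      rw [mem_inter]
      refine ⟨mem_mv46.2 ⟨v, hv.1, rfl⟩, ?_⟩
      by_contra h
      exact hv.2 ⟨hv.1, h⟩
    have h2 := card_le_card h1
    rw [card_map] at h2
    have h3 := le_card_sdiff ({p.1, u} : Finset (Fin n)) A
    have h4 : #({p.1, u} : Finset (Fin n)) ≤ 2 := card_le_two
    omega
  have h5 : ∑ γ ∈ Γ, #(Q γ) * (#A - 2) ≤ ∑ γ ∈ Γ, 2 * #(mv γ A ∩ A) := by
    apply Finset.sum_le_sum
    intro γ hγ
    rcases (Q γ).eq_empty_or_nonempty with h | h
    · simp [h]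
    · exact Nat.mul_le_mul (hQ2 γ hγ) (hcard γ hγ h)
  rw [← Finset.sum_mul, ← Finset.mul_sum] at h5
  have h6 := hCNT n G hG A
  rw [h0]
  have h7 : (∑ γ ∈ Γ, #(Q γ)) * (#A - 2) ≤ (4 * #A) * (#A - 2) := by
    calc (∑ γ ∈ Γ, #(Q γ)) * (#A - 2) ≤ 2 * ∑ γ ∈ Γ, #(mv γ A ∩ A) := h5
      _ ≤ 2 * (#A * (#A - 1)) := Nat.mul_le_mul_left 2 h6
      _ ≤ (4 * #A) * (#A - 2) := by
        have h8 : #A - 1 ≤ 2 * (#A - 2) := by omega
        calc 2 * (#A * (#A - 1)) ≤ 2 * (#A * (2 * (#A - 2))) := by gcongr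
          _ = (4 * #A) * (#A - 2) := by ring
  exact Nat.le_of_mul_le_mul_right h7 (by omega)

end Pool.Agent.Helper47.SR
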