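import Pool.Agent.Helper47.SR.Base46

/-! Packet SR-TL (MP_0130f7_co, helper47), proved by helper46. -/

namespace Pool.Agent.Helper47.SR

open Finset

theorem goal_TL (hCNT : Goal_CNT) : Goal_TL := by
  intro n G hG A hA
  classical
  have h0 : ∑ j ∈ Aᶜ, wt G (insert j A) = #(Aᶜ.sigma (fun j => WS46 G (insert j A))) := by
    rw [Finset.card_sigma]; rfl
  set P := Aᶜ.sigma (fun j => WS46 G (insert j A)) with hP
  have hmem : ∀ p ∈ P, p.1 ∉ A ∧ p.2 ∈ G ∧ p.2 ≠ 1 ∧ mv p.2 (insert p.1 A) = insert p.1 A := by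
    intro p hp
    simp only [hP, mem_sigma, mem_compl, mem_WS46] at hp
    exact hp
  -- `mv γ A ∩ A` has `#A - 1` elements and `j ∈ mv γ A`
  have hj : ∀ p ∈ P, p.1 ∈ mv p.2 A := by
    intro p hp
    obtain ⟨hjA, hγG, hγ1, hγ⟩ := hmem p hp
    have h1 : p.1 ∈ mv p.2 (insert p.1 A) := by rw [hγ]; exact mem_insert_self _ _
    rw [mem_mv46] at h1 ⊢
    obtain ⟨y, hy, hy2⟩ := h1
    rw [mem_insert] at hy
    rcases hy with hy | hy
    · subst hy
      exact absurd hy2 (hG _ hγG hγ1 _)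
    · exact ⟨y, hy, hy2⟩
  have hsub : ∀ p ∈ P, mv p.2 A ⊆ insert p.1 A := by
    intro p hp
    obtain ⟨hjA, hγG, hγ1, hγ⟩ := hmem p hp
    intro x hx
    rw [← hγ, mem_mv46]
    rw [mem_mv46] at hx
    obtain ⟨y, hy, hy2⟩ := hx
    exact ⟨y, mem_insert_of_mem hy, hy2⟩
  have hcard : ∀ p ∈ P, #A - 1 ≤ #(mv p.2 A ∩ A) := by
    intro p hp
    have h1 : (mv p.2 A).erase p.1 ⊆ mv p.2 A ∩ A := by
      intro x hx
      rw [mem_erase] at hx
      rw [mem_inter]
      refine ⟨hx.2, ?_⟩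
      have := hsub p hp hx.2
      rw [mem_insert] at this
      exact this.resolve_left hx.1
    have h2 := card_le_card h1
    rw [card_erase_of_mem (hj p hp), card_map] at h2
    exact h2
  have hinj : Set.InjOn (fun p : (_ : Fin n) × Equiv.Perm (Fin n) => p.2) (P : Set _) := by
    intro p hp q hq h
    have hp' := hmem p hp
    have hq' := hmem q hq
    simp only at h
    have h1 := hj p hp
    rw [h] at h1
    have h2 := hsub q hq h1
    rw [mem_insert] at h2
    have h3 : p.1 = q.1 := h2.resolve_right hp'.1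
    exact Sigma.ext h3 (heq_of_eq h)
  have h3 : ∑ p ∈ P, #(mv p.2 A ∩ A) ≤
      ∑ γ ∈ (univ : Finset (Equiv.Perm (Fin n))).filter (fun γ => γ ∈ G ∧ γ ≠ 1), #(mv γ A ∩ A) := by
    rw [← Finset.sum_image (s := P) (g := fun p => p.2) (f := fun γ => #(mv γ A ∩ A)) hinj]
    apply Finset.sum_le_sum_of_subset
    intro γ hγ
    rw [mem_image] at hγ
    obtain ⟨p, hp, rfl⟩ := hγ
    have := hmem p hp
    simp only [mem_filter, mem_univ, true_and]
    exact ⟨this.2.1, this.2.2.1⟩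
  have h4 : #P * (#A - 1) ≤ ∑ p ∈ P, #(mv p.2 A ∩ A) := by
    rw [← smul_eq_mul]
    exact Finset.card_nsmul_le_sum _ _ _ hcard
  have h5 := hCNT n G hG A
  have h6 : #P * (#A - 1) ≤ #A * (#A - 1) := le_trans h4 (le_trans h3 h5)
  rw [h0]
  exact Nat.le_of_mul_le_mul_right h6 (by omega)

end Pool.Agent.Helper47.SR
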