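import Pool.Agent.Helper47.SR.Base46

/-! Packet SR-TP (MP_0130f7_co, helper47), proved by helper46. -/

namespace Pool.Agent.Helper47.SR

open Finset

theorem goal_TP : Goal_TP := by
  intro n G hG B hB a ha
  classical
  have key : ∑ i ∈ B.erase a, wt G (B.erase i) ≤ #(B.erase a) := by
    have h0 : ∑ i ∈ B.erase a, wt G (B.erase i) =
        #((B.erase a).sigma (fun i => WS46 G (B.erase i))) := by
      rw [Finset.card_sigma]; rfl
    rw [h0]
    apply Finset.card_le_card_of_injOn (fun p => p.2 a)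
    · rintro ⟨i, γ⟩ hp
      simp only [coe_sigma, Set.mem_sigma_iff, mem_coe, mem_erase, mem_WS46] at hp ⊢
      obtain ⟨⟨hia, hiB⟩, hγG, hγ1, hγ⟩ := hp
      refine ⟨hG γ hγG hγ1 a, ?_⟩
      have : γ a ∈ B.erase i := (apply_mem_iff46 hγ a).2 (by simp [ha, Ne.symm hia])
      exact mem_of_mem_erase this
    · rintro ⟨i, γ⟩ hp ⟨j, δ⟩ hq h
      simp only [coe_sigma, Set.mem_sigma_iff, mem_coe, mem_erase, mem_WS46] at hp hq h
      obtain ⟨⟨hia, hiB⟩, hγG, hγ1, hγ⟩ := hp
      obtain ⟨⟨hja, hjB⟩, hδG, hδ1, hδ⟩ := hq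
      have hγδ : γ = δ := inj_of_semireg46 hG hγG hδG h
      subst hγδ
      by_contra hne
      have hij : i ≠ j := by
        intro h; subst h; exact hne rfl
      have h1 : i ∈ B.erase j := by simp [hiB, hij]
      have h2 : γ i ∈ B.erase j := (apply_mem_iff46 hδ i).2 h1
      have h3 : γ i ∉ B.erase i := by
        rw [apply_mem_iff46 hγ i]; simp
      apply h3
      simp only [mem_erase]
      exact ⟨hG γ hγG hγ1 i, mem_of_mem_erase h2⟩
  rw [← Finset.add_sum_erase _ _ ha]
  rw [card_erase_of_mem ha] at key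
  have h5 : wt G (B.erase a) ≤ #B * wt G (B.erase a) :=
    Nat.le_mul_of_pos_left _ (by omega)
  omega

end Pool.Agent.Helper47.SR
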