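import Pool.Agent.Helper47.SR.Assemble
import Pool.Agent.Helper10.SR.E3
import Pool.Agent.Helper14.SR.CASEA
import Pool.Agent.Helper14.SR.CASEB
import Pool.Agent.Helper14.SR.N13
import Pool.Agent.Helper14.SR.QMID
import Pool.Agent.Helper14.SR.SYM
import Pool.Agent.Helper2.SR.INVC
import Pool.Agent.Helper31.SR.E23
import Pool.Agent.Helper31.SR.QSYM
import Pool.Agent.Helper32.SR.N2
import Pool.Agent.Helper32.SR.N4
import Pool.Agent.Helper38.SR.FLOW
import Pool.Agent.Helper42.SR.M2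
import Pool.Agent.Helper49.SR.E12
import Pool.Agent.Helper49.SR.LA
import Pool.Agent.Helper5.SR.ENT
import Pool.Agent.Helper5.SR.TB
import Pool.Agent.Helper55.SR.UINJ
import Pool.Agent.Helper56.SR.CNT
import Pool.Agent.Helper59.SR.M01
import Pool.Agent.Helper59.SR.TRADE
import Pool.Agent.Helper60.SR.STEP
import Pool.Agent.Helper61.SR.BASE
import Pool.Agent.Helper61.SR.CT
import Pool.Agent.Helper68.SR.KK
import Pool.Agent.Helper69.SR.CONV
import Pool.Agent.Helper71.SR.QST
import Pool.Agent.Helper74.SR.M2A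
import Pool.Agent.Helper79.SR2.CASEC
import Pool.Agent.Helper83.SR.STAN
import Pool.Agent.Helper85.SR.TR2
import Pool.Agent.Helper90.SR.ORB
import Pool.Agent.Helper47.SR.RL
import Pool.Agent.Helper47.SR.TL
import Pool.Agent.Helper47.SR.TP

/-! Final assembly of project SR. -/

namespace Pool.Agent.Helper47.SR

theorem final : Goal_FINAL := by
  have hINVC : Goal_INVC := Pool.Agent.Helper2.SR.goal_INVC
  have hCNT : Goal_CNT := Pool.Agent.Helper56.SR.goal_CNT
  have hTL : Goal_TL := goal_TL hCNT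
  have hRL : Goal_RL := goal_RL hCNT
  have hTP : Goal_TP := goal_TP
  have hTB : Goal_TB := Pool.Agent.Helper5.SR.goal_TB hTL
  have hFLOW : Goal_FLOW := goal_FLOW hRL hTP
  have hKKA : Goal_KKA := Pool.Agent.Helper68.SR.goal_KKA
  have hKKB : Goal_KKB := Pool.Agent.Helper68.SR.goal_KKB
  have hORB : Goal_ORB := goal_ORB
  have hLA : Goal_LA := goal_LA hORB
  have hSTAN : Goal_STAN := goal_STAN hLA goal_UINJ
  have hTR2 : Goal_TR2 := Pool.Agent.Helper85.SR.goal_TR2 hLA goal_TRADE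
  have hE12 : Goal_E12 := goal_E12 hINVC
  have hE3 : Goal_E3 := goal_E3 hINVC
  have hE23 : Goal_E23 := goal_E23 hINVC
  have hENT : Goal_ENT := Pool.Agent.Helper5.SR.goal_ENT
  have hM2A : Goal_M2A := Pool.Agent.Helper74.SR.goal_M2A
  have hM2 : Goal_M2 := Pool.Agent.Helper42.SR.goal_M2 hM2A hE23 hTB hKKA hKKB hORB
  exact final_of goal_SYM hE12 (goal_M01 hE23) hM2 (goal_CASEA hTB hFLOW hKKA)
    (goal_CASEB hKKA hKKB)
    (Pool.Agent.Helper79.SR2.goal_CASEC hTB hKKA hKKB hE12 hE3 hSTAN hTR2)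
    goal_N1 (goal_N2 hENT) goal_N3 (goal_N4 hENT)
    (goal_BASE (Pool.Agent.Helper60.SR.goal_STEP goal_CT)) goal_CONV goal_QSYM
    (Pool.Agent.Helper71.SR.goal_QST hORB) (goal_QMID hORB hSTAN)

end Pool.Agent.Helper47.SR
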