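import Mathlib

/-!
# Project SR: symmetric chain decompositions of `B_n / G` for semiregular `G` (MP_0130f7_co)

THEOREM.  There is `n₀` such that for all `n ≥ n₀` and all semiregular `G ≤ S_n` (no non-identity element
has a fixed point; e.g. every finite group of order `≥ n₀` in its regular representation) the quotient
`B_n / G` has a symmetric chain decomposition.

Every `Goal_X` below is a packet; its docstring is the paper proof.  Prove it as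
`theorem goal_X : Goal_X` (or under the stated hypotheses) in your own file.
Notation: a family = `Finset (Finset (Fin n))`; `lev n m` = all `m`-subsets; `wt G A` = number of `γ ≠ 1` in
`G` with `γ A = A`; `W G F = ∑_{A∈F} (1 + wt A)` (`= |G| ·` number of orbits for invariant `F`);
`up m F` / `dn m F` = the `(m+1)`-sets having some / all of their `m`-subsets in `F`.
-/

namespace Pool.Agent.Helper47.SR

open Finset

abbrev Grp (n : ℕ) := Subgroup (Equiv.Perm (Fin n))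

/-- image of a set under a permutation -/
abbrev mv {n : ℕ} (γ : Equiv.Perm (Fin n)) (A : Finset (Fin n)) : Finset (Fin n) :=
  A.map γ.toEmbedding

/-- no non-identity element of `G` has a fixed point -/
def Semireg {n : ℕ} (G : Grp n) : Prop := ∀ γ ∈ G, γ ≠ 1 → ∀ x, γ x ≠ x

/-- all `m`-subsets -/
abbrev lev (n m : ℕ) : Finset (Finset (Fin n)) := powersetCard m univ

open Classical in
/-- number of non-identity elements of `G` fixing `A` -/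
noncomputable def wt {n : ℕ} (G : Grp n) (A : Finset (Fin n)) : ℕ :=
  #((univ : Finset (Equiv.Perm (Fin n))).filter (fun γ => γ ∈ G ∧ γ ≠ 1 ∧ mv γ A = A))

/-- `∑ wt` over a family -/
noncomputable def Ew {n : ℕ} (G : Grp n) (F : Finset (Finset (Fin n))) : ℕ := ∑ A ∈ F, wt G A

/-- `∑ (1 + wt)` over a family -/
noncomputable def W {n : ℕ} (G : Grp n) (F : Finset (Finset (Fin n))) : ℕ := ∑ A ∈ F, (1 + wt G A)

def IsInv {n : ℕ} (G : Grp n) (F : Finset (Finset (Fin n))) : Prop := ∀ γ ∈ G, ∀ A ∈ F, mv γ A ∈ F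

def up {n : ℕ} (m : ℕ) (F : Finset (Finset (Fin n))) : Finset (Finset (Fin n)) :=
  (lev n (m + 1)).filter (fun B => ∃ a ∈ B, B.erase a ∈ F)

def dn {n : ℕ} (m : ℕ) (F : Finset (Finset (Fin n))) : Finset (Finset (Fin n)) :=
  (lev n (m + 1)).filter (fun B => ∀ a ∈ B, B.erase a ∈ F)

/-- the middle-out condition between the levels `m` and `m+1` -/
def StarAt {n : ℕ} (G : Grp n) (m : ℕ) : Prop :=
  ∀ S Y : Finset (Finset (Fin n)), S ⊆ lev n m → Y ⊆ lev n m → IsInv G S → IsInv G Y →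
    W G Y < W G S → W G (dn m Y) + W G S ≤ W G (up m S) + W G Y

/-- same, only for `Y` of at most half size -/
def HalfStarAt {n : ℕ} (G : Grp n) (m : ℕ) : Prop :=
  ∀ S Y : Finset (Finset (Fin n)), S ⊆ lev n m → Y ⊆ lev n m → IsInv G S → IsInv G Y →
    2 * W G Y ≤ W G (lev n m) →
    W G Y < W G S → W G (dn m Y) + W G S ≤ W G (up m S) + W G Y

open Classical in
/-- the orbit of a set -/
noncomputable def orb {n : ℕ} (G : Grp n) (A : Finset (Fin n)) : Finset (Finset (Fin n)) :=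
  univ.filter (fun B => ∃ γ ∈ G, mv γ A = B)

/-- level `j` of the quotient -/
noncomputable def QL {n : ℕ} (G : Grp n) (j : ℕ) : Finset (Finset (Finset (Fin n))) :=
  (lev n j).image (orb G)

/-- order relation of the quotient -/
def QR {n : ℕ} (O O' : Finset (Finset (Fin n))) : Prop := ∃ A ∈ O, ∃ B ∈ O', A ⊆ B

/-- number of involutions of `G` -/
noncomputable def nInv {n : ℕ} (G : Grp n) : ℕ :=
  Nat.card {γ : Equiv.Perm (Fin n) // γ ∈ G ∧ γ ≠ 1 ∧ γ * γ = 1}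

/-- the body of the frozen statement S06879 for one group -/
def QuotientHasSCD (n : ℕ) (G : Subgroup (Equiv.Perm (Fin n))) : Prop :=
  ∃ C : Finset (List (Finset (Fin n))),
    (∀ L ∈ C, L ≠ [] ∧
      (∀ (i : ℕ) (A B : Finset (Fin n)), L[i]? = some A → L[i+1]? = some B →
          A ⊆ B ∧ B.card = A.card + 1) ∧
      (∀ A ∈ L.head?, ∀ B ∈ L.getLast?, A.card + B.card = n)) ∧
    ∀ S : Finset (Fin n), ∃! p : List (Finset (Fin n)) × ℕ,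
      p.1 ∈ C ∧ ∃ T : Finset (Fin n), p.1[p.2]? = some T ∧
        ∃ g ∈ G, T.map (Equiv.toEmbedding g) = S

/-- partial symmetric chain decomposition of the levels `m, …, n - m` -/
def PSCD {P : Type} (n : ℕ) (L : ℕ → Finset P) (cov : P → P → Prop) (m : ℕ) : Prop :=
  ∃ C : Finset (List P),
    (∀ l ∈ C, ∃ i, m ≤ i ∧ 2 * i ≤ n ∧ l.length = n - 2 * i + 1 ∧
      (∀ (j : ℕ) (x : P), l[j]? = some x → x ∈ L (i + j)) ∧
      (∀ (j : ℕ) (x y : P), l[j]? = some x → l[j+1]? = some y → cov x y)) ∧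
    ∀ j, m ≤ j → j + m ≤ n → ∀ x ∈ L j, ∃! l, l ∈ C ∧ x ∈ l

/-! ## Part I: the middle-out criterion -/

/-- CT (0.7 h).  Common transversal (Ford–Fulkerson).  Proof: Hall's theorem
(`Finset.all_card_le_biUnion_card_iff_exists_injective`) for the bipartite graph with left side `I ⊔ U₁`,
right side `U₂ ⊔ J` (`U₁, U₂` copies of `U`), edges `i ~ e₂` for `e ∈ A i`; `e₁ ~ e₂`; `e₁ ~ z` for `e ∈ B z`.
Both sides have `|I| + |U|` vertices, so an injection of the left side is a bijection; then `a i` := partner of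
`i`; `e₂` is the partner of some `i` iff `e₁` is matched into `J`.  Hall's condition for `S ∪ F₁`: with
`T = {z | B z ∩ F = ∅}`: `|A(S) ∪ F| + |J| - |T| ≥ |S| + |F|` since `|A(S) \ F| ≥ |A(S) ∩ B(T)|`. -/
def Goal_CT : Prop :=
  ∀ {E I J : Type} [DecidableEq E] [Fintype I] [Fintype J] [DecidableEq I] [DecidableEq J]
    (A : I → Finset E) (B : J → Finset E), Fintype.card I = Fintype.card J →
    (∀ (S : Finset I) (T : Finset J), #S + #T ≤ #((S.biUnion A) ∩ (T.biUnion B)) + Fintype.card I) →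
    ∃ (a : I → E) (e : I ≃ J), Function.Injective a ∧ ∀ i, a i ∈ A i ∧ a i ∈ B (e i)

/-- STEP (1.5 h, hypothesis `Goal_CT`).  One step of the middle-out construction.  Let `C` be the given
decomposition of the levels `m+1 … n-m-1`.  Every `x ∈ L (m+1)` is in exactly one list `l_x`; by disjointness of
the levels it is its head (`i + j = m + 1`, `i ≥ m + 1`), so `i = m+1` and the last entry `φ x` of `l_x` is in
`L (n-m-1)`; `φ` is injective, hence a bijection onto `L (n-m-1)` (every `y ∈ L (n-m-1)` is in one list, and it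
is its last entry).  Apply CT with `I = L m`, `J = L (n-m)` (subtypes), `A s = {x ∈ L (m+1) | cov s x}`,
`B t = {x ∈ L (m+1) | cov (φ x) t}`: `|A(S) ∩ B(T)| ≥ |A(S)| + |B(T)| - |L (m+1)|`, the case
`|S| + |T| ≤ |L m|` is trivial.  New lists: `s :: l_{a s} ++ [e s]` for `s ∈ L m`, and the other old lists. -/
def Goal_STEP : Prop :=
  ∀ {P : Type} [DecidableEq P] (n : ℕ) (L : ℕ → Finset P) (cov : P → P → Prop) (m : ℕ),
    (∀ i j, i ≠ j → Disjoint (L i) (L j)) → 2 * (m + 1) ≤ n →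
    #(L m) = #(L (n - m)) → #(L (m + 1)) = #(L (n - m - 1)) →
    (∀ S ⊆ L m, ∀ T ⊆ L (n - m), #(L m) < #S + #T →
      ∀ [DecidablePred (fun x => ∃ s ∈ S, cov s x)] [DecidablePred (fun x => ∃ t ∈ T, cov x t)],
      #S + #T + #(L (m + 1)) ≤ #((L (m + 1)).filter (fun x => ∃ s ∈ S, cov s x)) +
        #((L (n - m - 1)).filter (fun x => ∃ t ∈ T, cov x t)) + #(L m)) →
    PSCD n L cov (m + 1) → PSCD n L cov m

/-- BASE (1.2 h, hypothesis `Goal_STEP`).  Downward induction with STEP.  Start: `n = 2 r`: `C` = the one-element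
lists `[x]`, `x ∈ L r`.  `n = 2 r + 1`: Hall's theorem gives an injection `ψ : L r → L (r+1)` with `cov x (ψ x)`,
a bijection since the cardinalities agree; `C` = the lists `[x, ψ x]`. -/
def Goal_BASE : Prop :=
  ∀ {P : Type} [DecidableEq P] (n : ℕ) (L : ℕ → Finset P) (cov : P → P → Prop),
    (∀ i j, i ≠ j → Disjoint (L i) (L j)) → (∀ m, m ≤ n → #(L m) = #(L (n - m))) →
    (∀ m, 2 * (m + 1) ≤ n → ∀ S ⊆ L m, ∀ T ⊆ L (n - m), #(L m) < #S + #T →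
      ∀ [DecidablePred (fun x => ∃ s ∈ S, cov s x)] [DecidablePred (fun x => ∃ t ∈ T, cov x t)],
      #S + #T + #(L (m + 1)) ≤ #((L (m + 1)).filter (fun x => ∃ s ∈ S, cov s x)) +
        #((L (n - m - 1)).filter (fun x => ∃ t ∈ T, cov x t)) + #(L m)) →
    (∀ m, 2 * m + 1 = n → ∀ S ⊆ L m, ∀ [DecidablePred (fun x => ∃ s ∈ S, cov s x)],
      #S ≤ #((L (m + 1)).filter (fun x => ∃ s ∈ S, cov s x))) →
    PSCD n L cov 0

/-- CONV (1.2 h).  From a symmetric chain decomposition of the quotient to lists of sets: for a chain of orbits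
`O_i, …, O_{n-i}` choose representatives one after the other: `QR O O'` and `A ∈ O` give `B ∈ O'` with `A ⊆ B`
(translate by an element of `G`).  `|A_j| = i + j`.  A set `S` is in the orbit of exactly one entry: its orbit
`orb G S ∈ QL G |S|` is in exactly one list, at exactly one position (the sizes in a list are strictly
increasing).  Different lists of orbits give different lists of sets (take the orbit of the head). -/
def Goal_CONV : Prop :=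
  ∀ (n : ℕ) (G : Grp n), PSCD n (QL G) QR 0 → QuotientHasSCD n G

/-- ORB (0.8 h).  Orbit–stabiliser: group the sum `∑_{A ∈ F} (1 + wt A)` by orbits; on the orbit of `A` the
summand is constant `|Stab A|` and the orbit has `|G| / |Stab A|` elements. -/
def Goal_ORB : Prop :=
  ∀ (n : ℕ) (G : Grp n) (F : Finset (Finset (Fin n))), IsInv G F →
    W G F = Nat.card G * #(F.image (orb G))

/-- QSYM (0.5 h).  The levels of the quotient are disjoint and `#(QL G m) = #(QL G (n-m))` by complementation. -/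
def Goal_QSYM : Prop :=
  ∀ (n : ℕ) (G : Grp n), (∀ i j, i ≠ j → Disjoint (QL G i) (QL G j)) ∧
    ∀ m, m ≤ n → #(QL G m) = #(QL G (n - m))

/-- QST (1.2 h, hypothesis `Goal_ORB`).  `StarAt` implies the cardinality condition of BASE.  For `S ⊆ QL G m`
let `S~` be the union of its orbits (an invariant family, `W G S~ = |G| #S`); the `x ∈ QL G (m+1)` with
`∃ s ∈ S, QR s x` are the orbits of the members of `up m S~`.  For `T ⊆ QL G (n-m)` let `Y` be the family of the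
`m`-sets whose complement is not in an orbit of `T`: `W G Y = |G| (#(QL G m) - #T)` and the
`x ∈ QL G (n-m-1)` with `∃ t ∈ T, QR x t` are, by complementation, the orbits of the members of
`lev n (m+1) \ dn m Y`; so their number is `#(QL G (m+1)) - W(dn m Y)/|G|`.  Insert in `StarAt G m`. -/
def Goal_QST : Prop :=
  ∀ (n : ℕ) (G : Grp n) (m : ℕ), 2 * (m + 1) ≤ n → StarAt G m →
    ∀ S ⊆ QL G m, ∀ T ⊆ QL G (n - m), #(QL G m) < #S + #T →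
      ∀ [DecidablePred (fun x => ∃ s ∈ S, QR s x)] [DecidablePred (fun x => ∃ t ∈ T, QR x t)],
      #S + #T + #(QL G (m + 1)) ≤ #((QL G (m + 1)).filter (fun x => ∃ s ∈ S, QR s x)) +
        #((QL G (n - m - 1)).filter (fun x => ∃ t ∈ T, QR x t)) + #(QL G m)

/-- LA (1 h, hypothesis `Goal_ORB`).  Linear algebra on invariants.  The space of `G`-invariant functions
supported on `S` has dimension = number of orbits of `S` (basis: indicators of orbits); the map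
`f ↦ (B ↦ ∑_{A∈S} K B A f A)` maps it to invariant functions on `T` and is injective.  Compare dimensions and
use ORB. -/
def Goal_LA : Prop :=
  ∀ (n : ℕ) (G : Grp n) (S T : Finset (Finset (Fin n))) (K : Finset (Fin n) → Finset (Fin n) → ℝ),
    IsInv G S → IsInv G T → (∀ γ ∈ G, ∀ A B, K (mv γ B) (mv γ A) = K B A) →
    (∀ f : Finset (Fin n) → ℝ, (∀ γ ∈ G, ∀ A, f (mv γ A) = f A) → (∀ A, A ∉ S → f A = 0) →
      (∀ B ∈ T, ∑ A ∈ S, K B A * f A = 0) → ∀ A, f A = 0) →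
    W G S ≤ W G T

/-- UINJ (0.8 h).  The up operator is injective below the middle: with `U f (B) = ∑_{a∈B} f (B \ a)` for
`|B| = m+1` and `D f (C) = ∑_{a∉C} f (C ∪ a)` for `|C| = m-1` one has
`∑_B (U f B)² - ∑_C (D f C)² = (n - 2m) ∑_A (f A)²` (both sides contain `∑ f A f A'` over the ordered pairs with
`|A ∩ A'| = m - 1`; diagonal terms `n - m` and `m`). -/
def Goal_UINJ : Prop :=
  ∀ (n m : ℕ), 2 * m + 1 ≤ n → ∀ f : Finset (Fin n) → ℝ,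
    (∀ B : Finset (Fin n), #B = m + 1 → ∑ a ∈ B, f (B.erase a) = 0) → ∀ A, #A = m → f A = 0

/-- STAN (0.6 h, hypotheses `Goal_LA`, `Goal_UINJ`).  Stanley: expansion by at least 1 below the middle.
LA with `T = up m S`, `K B A = 1` if `A ⊆ B`, else `0` (for `B ∉ up m S` the sum is `0` automatically). -/
def Goal_STAN : Prop :=
  ∀ (n : ℕ) (G : Grp n) (m : ℕ), 2 * m + 1 ≤ n → ∀ S ⊆ lev n m, IsInv G S → W G S ≤ W G (up m S)

/-- QMID (0.6 h, hypotheses `Goal_ORB`, `Goal_STAN`).  The middle level condition of BASE. -/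
def Goal_QMID : Prop :=
  ∀ (n : ℕ) (G : Grp n) (m : ℕ), 2 * m + 1 = n → ∀ S ⊆ QL G m,
    ∀ [DecidablePred (fun x => ∃ s ∈ S, QR s x)],
      #S ≤ #((QL G (m + 1)).filter (fun x => ∃ s ∈ S, QR s x))

/-- TRADE (1.2 h).  Support of a trade.  `f` is supported on the `k`-subsets of `V` and
`∑_{B ⊇ C} f B = 0` for all `C ⊆ V` with `|C| = k - s`.  Then `|supp f| ≥ 2^(k+1-s)` (truncated subtraction;
trivial if `k + 1 ≤ s`).  Induction on `|V|`: pick `x ∈ V`, `Q A = f (A ∪ x)` (`(k-1)`-sets in `V \ x`),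
`R = f` on the `k`-sets avoiding `x`.  `Q` satisfies the condition with `(k-1, s)`; `R` with `(k, s+1)` (the sums
of `f` over the `B ⊇ C`, `|C| = k-s-1`, vanish because each is `1/(s+1)` times the sum over `C' ⊇ C` of the
sums for `C'`; subtract the sum over `B ⊇ C ∪ x`).  If `Q = 0` pass to `R` with the same `s` on `V \ x`.  If
`R = 0`, `Q ≠ 0`: `Q` satisfies the condition with `(k-1, s-1)` (for `C ∌ x`, `|C| = k - s`, the sum of `f` over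
`B ⊇ C` is the sum of `Q` over `A ⊇ C`), so if `s = 1` then `Q = 0`, contradiction, else
`|supp| ≥ 2^(k-1+1-(s-1))`.  If both are `≠ 0`: `2^(k-s) + 2^(k-s)` (if `k ≥ s`). -/
def Goal_TRADE : Prop :=
  ∀ {α : Type} [DecidableEq α] (V : Finset α) (k s : ℕ) (f : Finset α → ℝ), 1 ≤ s →
    (∀ A, f A ≠ 0 → A ⊆ V ∧ #A = k) → (∃ A, f A ≠ 0) →
    (∀ C ⊆ V, #C + s = k → ∑ B ∈ (powersetCard k V).filter (fun B => C ⊆ B), f B = 0) →
    2 ^ (k + 1 - s) ≤ #((powersetCard k V).filter (fun B => f B ≠ 0))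

/-- TR2 (0.7 h, hypotheses `Goal_LA`, `Goal_TRADE`).  LA with `S := dn m Y`, `T := Y`, `K B A = 1` if `B ⊆ A`:
if `f` is supported on `dn m Y` and all sums over `A ⊇ B`, `B ∈ Y`, vanish, then also for `B ∉ Y` (no member of
`dn m Y` contains `B`), so `f` is a trade (`s = 1`, `k = m+1`), and `f ≠ 0` would give
`2^(m+1) ≤ #(dn m Y) ≤ W G (dn m Y)`. -/
def Goal_TR2 : Prop :=
  ∀ (n : ℕ) (G : Grp n) (m : ℕ), ∀ Y ⊆ lev n m, IsInv G Y → W G (dn m Y) < 2 ^ (m + 1) →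
    W G (dn m Y) ≤ W G Y

/-- SYM (0.8 h).  Symmetric reduction.  Given `S, Y` with `2 W(Y) > W(lev)`: use `S' = lev \ Y`,
`Y' = lev \ S`; `up m (lev \ Y) = lev (m+1) \ dn m Y`, `dn m (lev \ S) = lev (m+1) \ up m S`, `W` is additive. -/
def Goal_SYM : Prop :=
  ∀ (n : ℕ) (G : Grp n) (m : ℕ), HalfStarAt G m → StarAt G m

/-! ## Part II: semiregular groups -/

/-- CNT (0.4 h).  For `u ∈ A` the `γ ∈ G`, `γ ≠ 1`, with `γ u ∈ A` have different images `γ u ∈ A \ u`. -/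
def Goal_CNT : Prop :=
  ∀ (n : ℕ) (G : Grp n), Semireg G → ∀ A : Finset (Fin n),
    ∀ [DecidablePred (fun γ : Equiv.Perm (Fin n) => γ ∈ G ∧ γ ≠ 1)],
    ∑ γ ∈ (univ : Finset (Equiv.Perm (Fin n))).filter (fun γ => γ ∈ G ∧ γ ≠ 1), #(mv γ A ∩ A)
      ≤ #A * (#A - 1)

/-- TL (0.8 h, hypothesis `Goal_CNT`).  `m = #A ≥ 2`.  Count pairs `(γ ≠ 1, j ∉ A)` with `A ∪ j` `γ`-invariant.
For such a pair `γ j ≠ j`, `γ⁻¹ j ∈ A`, `γ` maps `A \ γ⁻¹ j` into `A` (an element `u ∈ A` has `γ u ∈ A ∪ j`), so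
`#(γ A ∩ A) = m - 1`, and `j` is determined by `γ` (`{j} = γ A \ A`).  So (number)`·(m-1) ≤ m(m-1)`. -/
def Goal_TL : Prop :=
  ∀ (n : ℕ) (G : Grp n), Semireg G → ∀ A : Finset (Fin n), 2 ≤ #A →
    ∑ j ∈ Aᶜ, wt G (insert j A) ≤ #A

/-- RL (1 h, hypothesis `Goal_CNT`).  `m = #A ≥ 3`.  Count triples `(γ ≠ 1, i ∈ A, j ∉ A)` with
`x = (A \ i) ∪ j` `γ`-invariant.  `u₀ = γ⁻¹ j ∈ A \ i`; `γ i ∉ x` and `γ i ≠ i` so `γ i ∉ A`; the other `m - 2`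
elements of `A` are mapped into `A`: `#(γ A ∩ A) = m - 2`.  For given `γ` the two elements of `A` not mapped
into `A` are `i` and `u₀`, and `j = γ u₀`: at most 2 pairs `(i,j)`.  So
(number)`·(m-2) ≤ 2 m (m-1) ≤ 4 m (m-2)`. -/
def Goal_RL : Prop :=
  ∀ (n : ℕ) (G : Grp n), Semireg G → ∀ A : Finset (Fin n), 3 ≤ #A →
    ∑ i ∈ A, ∑ j ∈ Aᶜ, wt G (insert j (A.erase i)) ≤ 4 * #A

/-- TP (0.9 h).  `k = #B ≥ 2`.  Let `Γ` = the `γ ≠ 1` for which `B \ i` is `γ`-invariant for some `i ∈ B`; `i` is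
unique: `γ i ∉ B` (`γ i ≠ i`, and `γ i ∈ B \ i` would give `i ∈ B \ i`), while the other elements are mapped
into `B`.  For `u ∈ B` there are at most `k - 1` elements `γ ≠ 1` with `γ u ∈ B`; in particular at most `k - 1`
`γ ∈ Γ` with `i_γ ≠ u`.  If `wt (B \ a) = 0`: take `u = a`: all `i_γ ≠ a`, so `#Γ ≤ k - 1`.  If
`wt (B \ a) ≥ 1`: `#Γ ≤ (k - 1) + wt (B \ a) ≤ (k-1) + (k-2)`, since the stabiliser of the non-empty set
`B \ a` acts freely on it (`1 + wt ≤ k - 1`), and `(k-1) + k wt(B \ a) ≥ 2k - 1`. -/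
def Goal_TP : Prop :=
  ∀ (n : ℕ) (G : Grp n), Semireg G → ∀ B : Finset (Fin n), 2 ≤ #B → ∀ a ∈ B,
    ∑ i ∈ B, wt G (B.erase i) ≤ (#B - 1) + #B * wt G (B.erase a)

/-- TB (0.6 h, hypothesis `Goal_TL`).  Count pairs (`x ∈ dn m Y`, `i ∈ x`) with weight `wt x`: each `x` has
`m+1` elements `i` and `x \ i ∈ Y`; for `y ∈ Y` the total weight of its `x = y ∪ j` is `≤ m`. -/
def Goal_TB : Prop :=
  ∀ (n : ℕ) (G : Grp n), Semireg G → ∀ m, 2 ≤ m → ∀ Y ⊆ lev n m,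
    (m + 1) * Ew G (dn m Y) ≤ m * #Y

/-- FLOW (1.5 h, hypotheses `Goal_RL`, `Goal_TP`).  Put `k = m + 1` and for `y ⊂ x`, `|y| = m`, `|x| = k`:
`F(y,x) = (k-1) + k wt(y) - ∑_{i∈x} wt(x \ i)` (an integer, `≥ 0` by TP).  (1) `∑_{y⊂x} F(y,x) = k(k-1)`.
(2) `∑_{x⊃y} F(y,x) = (n-k+1)(k-1)(1 + wt y) - R(y)` with `R(y) = ∑_{i∈y} ∑_{j∉y} wt((y \ i) ∪ j) ≤ 4m`, since
`∑_{j∉y} ∑_{i∈y∪j} wt((y∪j) \ i) = (n-k+1) wt y + R(y)`.  Sum (2) over `y ∈ S` and use (1):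
`k(k-1) #(up m S) ≥ (n-m) m W(S) - 4 m #S`, i.e. `(m+1) #(up m S) ≥ (n-m) W(S) - 4 #S ≥ (n-m-4) W(S)`. -/
def Goal_FLOW : Prop :=
  ∀ (n : ℕ) (G : Grp n), Semireg G → ∀ m, 3 ≤ m → ∀ S ⊆ lev n m,
    n * W G S ≤ (m + 1) * #(up m S) + (m + 4) * W G S

/-- KKA (1 h).  Kruskal–Katona, ratio form, down.  If `z ≥ n` use the local LYM inequality
(`local_lubell_yamamoto_meshalkin_inequality_mul`) for `dn m Y` (its shadow is in `Y`).  If `z < n`: first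
`#(dn m Y) ≤ C(z, m+1)`: otherwise take the initial colex segment of `C(z,m+1) + 1` sets: it contains all
`(m+1)`-subsets of the first `z` points and one more set, so its shadow has more than `C(z,m)` elements
(`m ≥ 1`), contradiction with `kruskal_katona`.  Then the initial segment `𝒞` of size `#(dn m Y)` consists of
subsets of the first `z` points; local LYM in `z` points: `(m+1) #𝒞 ≤ (z-m) #∂𝒞 ≤ (z-m) #Y`. -/
def Goal_KKA : Prop :=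
  ∀ (n m z : ℕ), 1 ≤ m → m ≤ z → ∀ Y ⊆ lev n m, #Y ≤ z.choose m →
    (m + 1) * #(dn m Y) ≤ (z - m) * #Y

/-- KKB (0.9 h).  Kruskal–Katona, ratio form, up.  Pass to complements: `#(up m S)` = size of the shadow of the
family `𝒜` of the complements, `r`-sets with `r = n - m`, `#𝒜 ≤ C(w, r)`.  The initial colex segment of size
`#𝒜` consists of subsets of the first `w` points (if `w < n`; for `w ≥ n` nothing to do), local LYM in `w`
points: `r #𝒜 ≤ (w - r + 1) #∂`. -/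
def Goal_KKB : Prop :=
  ∀ (n m w : ℕ), m ≤ n → n - m ≤ w → ∀ S ⊆ lev n m, #S ≤ w.choose (n - m) →
    (n - m) * #S ≤ (w - (n - m) + 1) * #(up m S)

/-- INVC (1 h).  The sets invariant under the semiregular group `H` of order `h` are the unions of `H`-orbits,
all of size `h` (there are `n/h` orbits). -/
def Goal_INVC : Prop :=
  ∀ (n : ℕ) (H : Grp n), Semireg H →
    (∀ j, ∀ [DecidablePred (fun A : Finset (Fin n) => ∀ γ ∈ H, mv γ A = A)],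
      #((lev n j).filter (fun A => ∀ γ ∈ H, mv γ A = A)) ≤
        (n / Nat.card H).choose (j / Nat.card H)) ∧
    ∀ [DecidablePred (fun A : Finset (Fin n) => ∀ γ ∈ H, mv γ A = A)],
      #((univ : Finset (Finset (Fin n))).filter (fun A => ∀ γ ∈ H, mv γ A = A)) ≤
        2 ^ (n / Nat.card H)

/-- E12 (0.9 h, hypothesis `Goal_INVC`).  `Ew G (lev n j) = ∑_{γ≠1}` number of `γ`-invariant `j`-sets; INVC for
`H = zpowers γ`, order `o ≥ 2`; `C(n/o, j/o) ≤ C(n/2, j/2)` if `2j ≤ n` (monotone in the upper index, and in the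
lower one up to the middle: `j/2 ≤ (n/2+1)/2`); `|G| ≤ n` for `n ≥ 1` (for `n = 0` `G` is trivial). -/
def Goal_E12 : Prop :=
  ∀ (n : ℕ) (G : Grp n), Semireg G → ∀ j,
    (2 * j ≤ n → Ew G (lev n j) ≤ n * (n / 2).choose (j / 2)) ∧ Ew G (lev n j) ≤ n * 2 ^ (n / 2)

/-- E3 (1.2 h, hypothesis `Goal_INVC`).  Sets with stabiliser of order `≥ 3`.  `1 + wt A ≤ #A ≤ n` (`A ≠ ∅`, the
stabiliser acts freely).  If `wt A ≥ 2` then either some `γ` in the stabiliser has order `≥ 3` (at most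
`n 2^(n/3)` such `A`) or the stabiliser contains two different commuting involutions (all its elements are
involutions), generating a semiregular group of order 4: at most `n² 2^(n/4)` such `A`. -/
def Goal_E3 : Prop :=
  ∀ (n : ℕ) (G : Grp n), Semireg G → ∀ j, 1 ≤ j →
    ∑ A ∈ (lev n j).filter (fun A => 2 ≤ wt G A), (1 + wt G A) ≤ 2 * n ^ 3 * 2 ^ (n / 3)

/-- E23 (1 h, hypothesis `Goal_INVC`).  (a) a pair is fixed by `γ ≠ 1` iff it is a 2-cycle of the involution `γ`;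
an involution has `n/2` 2-cycles: `2 Ew(lev n 2) = n · nInv`.  (b) a 3-set is fixed by `γ ≠ 1` only if `γ` has
order 3 and it is a cycle of `γ`: `3 Ew(lev n 3) ≤ n ·` (number of elements of order 3) `≤ n (|G| - 1 - nInv)`. -/
def Goal_E23 : Prop :=
  ∀ (n : ℕ) (G : Grp n), Semireg G → 1 ≤ n →
    2 * Ew G (lev n 2) = n * nInv G ∧ 3 * Ew G (lev n 3) + n * (1 + nInv G) ≤ n * Nat.card G ∧
    Nat.card G ≤ n

/-- M01 (1 h, hypothesis `Goal_E23` allowed).  `m = 0`: `Y = ∅`, `S = {∅}`, `dn 0 ∅ = ∅`,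
`W(up 0 S) ≥ W(S) = |G|` (`W` of the level 1 is `|G| ·` number of orbits of points `≥ |G|`; or use that
`#(up 0 S) = n ≥ |G|`).  `m = 1`: `F` = singletons `{u}`, `u ∈ F'`, `F'` a `G`-invariant set of `f` points;
`W F = f`; `#(dn 1 F) = C(f,2)`, `#(up 1 F) = C(n,2) - C(n-f,2)`, and `2 Ew(dn 1 F) = nInv · f` (each involution
has `f/2` 2-cycles in `F'`).  With `|S| = s > y = |Y|`: `Ew(up 1 S) ≥ Ew(dn 1 S) ≥ Ew(dn 1 Y)`, and
`C(n,2) - C(n-s,2) - C(y,2) ≥ s - y`: twice the left side is `s(2n-s-1) - y(y-1) ≥ (s-y)(s+y-1)`, fine if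
`s + y ≥ 3`; otherwise `y = 0`, `s ≤ 2 ≤ n - 2`. -/
def Goal_M01 : Prop :=
  ∀ (n : ℕ) (G : Grp n), Semireg G → 4 ≤ n → StarAt G 0 ∧ StarAt G 1

/-- M2A (1.3 h).  `m = 2`, `d = nInv G`, `D = n - 1 + d`.  For a pair `y` in a 3-set `x` put
`F(y,x) = 2D + (n-2)(3 wt y - t(x))`, `t(x) = ∑_{i∈x} wt(x \ i)`; `wt y ∈ {0,1}` for pairs.
`F ≥ 2(d+1) ≥ 2` always (if `t(x) = 3` then `wt y = 1`).  (1) `∑_{y⊂x} F = 6D`.  (2) `∑_{x⊃y} F(y,x) =
2(n-1)(n-2)(1 + wt y)`, because `∑_{j∉y} t(y ∪ j) = (n-2) wt y + 2(d - wt y)`: for `v ∈ y` the number of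
`j ∉ y` with `wt {v,j} = 1` is `d - wt y` (`j = γ v`, `γ` an involution).  (a) sum (2) over `y ∈ F`:
`2(n-1)(n-2) W(F) ≤ 6D #(up 2 F)`.  (b) the same sum is `≥ 6D #(dn 2 F) + 2 (#(up 2 F) - #(dn 2 F))`. -/
def Goal_M2A : Prop :=
  ∀ (n : ℕ) (G : Grp n), Semireg G → 3 ≤ n → ∀ F ⊆ lev n 2,
    (n - 1) * (n - 2) * W G F ≤ 3 * (n - 1 + nInv G) * #(up 2 F) ∧
    3 * (n - 1 + nInv G) * #(dn 2 F) + #(up 2 F) ≤ (n - 1) * (n - 2) * W G F + #(dn 2 F)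

/-- M2 (1.5 h, hypotheses `Goal_M2A`, `Goal_E23`, `Goal_TB`, `Goal_KKA`, `Goal_KKB`, `Goal_ORB`).
Let `g = |G|`, `d = nInv`, `D = n-1+d ≤ 2n`, `λ = (n-1)(n-2)/(3D)`, `2 W(Y) ≤ W(lev n 2) = nD/2`,
`W(S) ≥ W(Y) + g` (ORB).  By M2A it suffices that `Ew(dn Y) ≤ (λ-1) g + (#up Y - #dn Y)/(3D)`.  Suppose
`Ew(dn Y) > (λ-1)g`.  As `Ew(dn Y) ≤ Ew(lev n 3) ≤ n(g-1-d)/3` we get `d ≤ 0.55 g ≤ 0.55 n` (`λ ≥ n/6 - 1/2`),
`D ≤ 1.55 n`, `#Y ≤ W(Y) ≤ nD/4 ≤ 0.3875 n² ≤ C(z,2)` with `z = ⌈0.9 n⌉`.  TB: `#Y ≥ 1.5 (λ-1) g ≥ 0.24 n g`.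
KKA with `z`, KKB with `w = n`: `#up Y - #dn Y ≥ 0.03 n #Y`, so `(#up Y - #dn Y)/(3D) ≥ 0.0064 #Y ≥
0.0015 n g`.  And `Ew(dn Y) - (λ-1)g ≤ (n(g-1-d) - 3(λ-1)g)/3 ≤ (5g - n - d(n-g))/3 ≤ 5g/3` because
`3λ = (n-1)(n-2)/(n-1+d) ≥ n-2-d`.  Fine for `n ≥ 1200`. -/
def Goal_M2 : Prop :=
  ∃ n₀ : ℕ, ∀ n ≥ n₀, ∀ G : Grp n, Semireg G → HalfStarAt G 2

/-- CASEA (0.7 h, hypotheses `Goal_TB`, `Goal_FLOW`, `Goal_KKA`).  `z = n-m-4`:
`(m+1) W(dn Y) ≤ (z-m) #Y + m #Y = z #Y ≤ (n-m-4) W(Y)` and `(m+1) W(up S) ≥ (n-m-4) W(S)`; subtract: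
`(m+1)[W(up S) - W(S) - W(dn Y) + W(Y)] ≥ (n-2m-5)(W(S) - W(Y)) ≥ 0`. -/
def Goal_CASEA : Prop :=
  ∀ (n : ℕ) (G : Grp n), Semireg G → ∀ m, 3 ≤ m → 2 * m + 5 ≤ n →
    ∀ S ⊆ lev n m, ∀ Y ⊆ lev n m, #Y ≤ (n - m - 4).choose m → W G Y < W G S →
      W G (dn m Y) + W G S ≤ W G (up m S) + W G Y

/-- CASEB (0.7 h, hypotheses `Goal_KKA`, `Goal_KKB`).  KKA with `z = n-1`, KKB with `w = n`:
`(m+1) W(dn Y) ≤ (n-1-m) #Y + (m+1) E_{m+1}`, `(m+1) W(up S) ≥ (n-m) #S ≥ (n-m)(W(S) - E_m)`, so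
`(m+1)[W(up S) - W(S) - W(dn Y) + W(Y)] ≥ (n-2m-1) W(S) + (m+1) W(Y) - (n-1-m) #Y - (n-m)E_m - (m+1)E_{m+1}
≥ #Y - (n-m)E_m - (m+1)E_{m+1} ≥ 0` (`W(S) ≥ W(Y) ≥ #Y`, `E_j = Ew G (lev n j)`). -/
def Goal_CASEB : Prop :=
  ∀ (n : ℕ) (G : Grp n) (m : ℕ), 1 ≤ m → 2 * (m + 1) ≤ n →
    ∀ S ⊆ lev n m, ∀ Y ⊆ lev n m, #Y ≤ (n - 1).choose m →
      (m + 1) * Ew G (lev n (m + 1)) + (n - m) * Ew G (lev n m) ≤ #Y → W G Y < W G S →
      W G (dn m Y) + W G S ≤ W G (up m S) + W G Y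

/-- CASEC (1.5 h, hypotheses `Goal_TB`, `Goal_KKA`, `Goal_KKB`, `Goal_E12`, `Goal_E3`, `Goal_STAN`, `Goal_TR2`).
If `W(dn Y) < 2^(m+1)`: TR2 and STAN.  Let `M = 3 n³ 2^(n/2)`, `E_j = Ew G (lev n j) ≤ n 2^(n/2)`.
C1: `W(S) ≥ M`: `(m+1) W(dn Y) ≤ (n-m) #Y + m #Y = n #Y` (KKA with `z = n`, TB),
`(m+1) W(up S) ≥ (n-m)(W(S) - E_m)`, so `(m+1)[...] ≥ (n-2m-1) W(S) - (n-m)E_m - n #Y ≥ 0`.
C2: `W(S) < M`: KKA with `z = m+i`: `(m+1) W(dn Y) ≤ (i+m) #Y`, hence `#Y ≥ 2^m` (`i ≤ m+2`) and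
`W(S) > 2^m ≥ 11 E₃`, `E₃ = ∑_{wt A ≥ 2}(1 + wt A)`; `#S ≥ (W(S) - E₃)/2`; KKB with `w = n-m+j`:
`(n-m) #S ≤ (j+1) #up S`.  So `2(j+1)(m+1)[W(up S) + W(Y) - W(dn Y) - W(S)] ≥ (m+1)(n-m)(W(S) - E₃)
- 2(j+1)(m+1) W(S) - 2(j+1)(i-1) #Y ≥ (m+1)(n-m)(W(S)-E₃) - 2(j+1)(m+i) W(S)
≥ (m+1)(n-m)(W(S)/11 - E₃) ≥ 0`. -/
def Goal_CASEC : Prop :=
  ∀ (n : ℕ) (G : Grp n), Semireg G → ∀ m i j, 2 ≤ m → 2 * (m + 1) ≤ n → i ≤ m + 2 →
    3 * n ^ 3 * 2 ^ (n / 2) ≤ (m + i).choose m →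
    3 * n ^ 3 * 2 ^ (n / 2) ≤ (n - m + j).choose (n - m) →
    22 * ((j + 1) * (i + m)) ≤ 10 * ((n - m) * (m + 1)) →
    22 * n ^ 3 * 2 ^ (n / 3) ≤ 2 ^ m →
    ∀ S ⊆ lev n m, ∀ Y ⊆ lev n m, IsInv G S → IsInv G Y →
      #Y < (m + 1) * Ew G (lev n (m + 1)) + (n - m) * Ew G (lev n m) → W G Y < W G S →
      W G (dn m Y) + W G S ≤ W G (up m S) + W G Y

/-! ## Part III: numerical inequalities -/

/-- ENT (0.6 h).  `a^a = ∑_j C(a,j) b^j (a-b)^(a-j)` and the term `j = b` is the largest. -/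
def Goal_ENT : Prop :=
  ∀ a b : ℕ, b ≤ a → a ^ a ≤ (a + 1) * (a.choose b * b ^ b * (a - b) ^ (a - b))

/-- N1 (1 h).  `C(n,m) ≥ C(n/2, m/2) C(n/2, m - m/2) ≥ 4 n C(n/2, m/2)` (`C(n/2, m-m/2) ≥ C(n/2, 2)`), and
`C(n-m-4,m) ≥ C(n,m) (1 - m(m+4)/(n-m-3)) ≥ (5/8) C(n,m)` (Bernoulli; `16 m² ≤ n`). -/
def Goal_N1 : Prop :=
  ∃ n₀ : ℕ, ∀ n ≥ n₀, ∀ m, 3 ≤ m → 16 * m ^ 2 ≤ n →
    n.choose m + n * (n / 2).choose (m / 2) ≤ 2 * (n - m - 4).choose m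

/-- N2 (1.5 h, hypothesis `Goal_ENT`).  `C(n/2, j)² ≤ C(n, 2j)`, `C(n,2j) ≤ n C(n,m)` for `|2j - m| ≤ 1`, so the
left side is `≤ 2 n^{5/2} C(n,m)^{1/2}`.  `C(n-m-4,m) ≥ ρ^m C(n,m)`, `ρ = (n-2m-3)/(n-m+1)`.  So it suffices
that `C(n,m) ρ^{2m} ≥ 4 n⁵`.  ENT: `C(n,m) ≥ (n/m)^m (1+x)^{m/x}/(n+1)` with `x = m/(n-m) ≤ 7/13`,
`(1+x)^{1/x} ≥ 2.2` (concavity of log: `log(1+x) ≥ (13/7) log(20/13) x`), and
`(n/m) · 2.2 · ρ² ≥ 1.3` for `m + 1 ≤ 7n/20`, `n` large (`(1/α)·2.2·((1-2α)/(1-α))²` is decreasing in `α`, equal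
to `1.339` at `α = 0.35`).  `1.3^m ≥ 4 n⁵ (n+1)` for `m > √n/4`, `n` large. -/
def Goal_N2 : Prop :=
  ∃ n₀ : ℕ, ∀ n ≥ n₀, ∀ m, n < 16 * m ^ 2 → 20 * (m + 1) ≤ 7 * n →
    (m + 1) * (n * (n / 2).choose ((m + 1) / 2)) + (n - m) * (n * (n / 2).choose (m / 2)) ≤
      (n - m - 4).choose m

/-- N3 (0.8 h).  `2 C(n-1,m) = 2 C(n,m)(n-m)/n ≥ C(n,m)(n+2)/n`, and
`2 C(n,m) ≥ 2 C(n/2,m/2) C(n/2, m - m/2) ≥ n² C(n/2,m/2)` since `3 ≤ m - m/2 ≤ n/2 - 3`, `C(n/2,3) ≥ n²/2`. -/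
def Goal_N3 : Prop :=
  ∃ n₀ : ℕ, ∀ n ≥ n₀, ∀ m, n < 16 * m ^ 2 → 2 * (m + 1) ≤ n →
    n.choose m + n * (n / 2).choose (m / 2) ≤ 2 * (n - 1).choose m

/-- N4 (1.5 h, hypothesis `Goal_ENT`).  `t = n / 200` (floor), `i = 40 t`, `j = 31 t`.  `m + 1 > 7n/20 ≥ 70 t`,
so `m ≥ 70 t`, `C(m+i, m) = C(m+i,i) ≥ C(110 t, 40 t)`, ENT:
`≥ (110^110/(40^40 70^70))^t/(110t+1) ≥ 2^(104 t)/(110 t+1)` (104.02); `n - m ≥ n/2 + 1 ≥ 100 t`:
`C(n-m+j, j) ≥ C(131 t, 31 t) ≥ 2^(103 t)/(131 t+1)` (103.41); `n/2 ≤ 100 t + 100`.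
`(n-m)(m+1)/((j+1)(i+m)) ≥ 2.2`: with `m = κ n`, `0.35 ≤ κ ≤ 0.5`: `(1-κ)κ/(0.155 (0.2+κ)) ≥ 2.3`.
`2^m ≥ 2^(0.35 n - 1)` against `22 n³ 2^(n/3)`. -/
def Goal_N4 : Prop :=
  ∃ n₀ : ℕ, ∀ n ≥ n₀, ∀ m, 7 * n < 20 * (m + 1) → 2 * (m + 1) ≤ n →
    ∃ i j, i ≤ m + 2 ∧ 3 * n ^ 3 * 2 ^ (n / 2) ≤ (m + i).choose m ∧
      3 * n ^ 3 * 2 ^ (n / 2) ≤ (n - m + j).choose (n - m) ∧
      22 * ((j + 1) * (i + m)) ≤ 10 * ((n - m) * (m + 1)) ∧
      22 * n ^ 3 * 2 ^ (n / 3) ≤ 2 ^ m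

/-- the theorem -/
def Goal_FINAL : Prop :=
  ∃ n₀ : ℕ, ∀ n ≥ n₀, ∀ G : Subgroup (Equiv.Perm (Fin n)), Semireg G → QuotientHasSCD n G

end Pool.Agent.Helper47.SR
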